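import Mathlib

/-!
# Fewest edges of a graph attaining the maximal c-rank sum

`St G W` is the set of common neighbours of `W`, the flats are the sets `St G W`, and the
c-rank is the height of the poset of flats.  For every `n ≥ 1` we determine
`M(n) = max (c-rk G + c-rk Gᶜ)` and the least number of edges of a graph attaining it:
`M(n) = n + 1` and `0` edges for `n ≤ 3`, `M(n) = n + 2` and `3` edges for `n ≥ 4`.
-/

namespace Pool.Agent.Results.MP_47eac2_co.FewestEdgesMax

variable {V : Type*}

/-- `St(W)`, the set of the vertices adjacent to all vertices of `W` (so `St(∅)` is everything). -/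
def St (G : SimpleGraph V) (W : Set V) : Set V := {v | ∀ w ∈ W, G.Adj w v}

/-- A flat is a set of the form `St(W)`. -/
def IsFlat (G : SimpleGraph V) (F : Set V) : Prop := ∃ W : Set V, F = St G W

/-- The c-rank: the height of the poset of flats, i.e. the largest `k` such that there is a chain
`p 0 < p 1 < ... < p k` of flats. -/
noncomputable def cRank (G : SimpleGraph V) : ℕ :=
  sSup {k : ℕ | ∃ p : Fin (k + 1) → Set V, StrictMono p ∧ ∀ i, IsFlat G (p i)}

/-- Witnesses for a chain of flats. -/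
def Wit (G : SimpleGraph V) (k : ℕ) (w v : ℕ → V) : Prop :=
  (∀ s t, s < t → t < k → G.Adj (w t) (v s)) ∧ ∀ t < k, ¬ G.Adj (w t) (v t)

lemma wit_of_chain [Nonempty V] {G : SimpleGraph V} {k : ℕ} (p : Fin (k + 1) → Set V)
    (hp : StrictMono p) (hf : ∀ i, IsFlat G (p i)) : ∃ w v, Wit G k w v := by
  classical
  choose W hW using hf
  have h1 : ∀ t : Fin k, ∃ x, x ∈ p t.succ ∧ x ∉ p t.castSucc := by
    intro t
    have := hp (Fin.castSucc_lt_succ (i := t))
    obtain ⟨x, hx1, hx2⟩ := Set.exists_of_ssubset this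
    exact ⟨x, hx1, hx2⟩
  choose v hv1 hv2 using h1
  have h2 : ∀ t : Fin k, ∃ y, y ∈ W t.castSucc ∧ ¬ G.Adj y (v t) := by
    intro t
    have := hv2 t
    rw [hW] at this
    simp only [St, Set.mem_ofPred_eq, not_forall] at this
    obtain ⟨y, hy, hy2⟩ := this
    exact ⟨y, hy, hy2⟩
  choose w hw1 hw2 using h2
  obtain ⟨x0⟩ := ‹Nonempty V›
  refine ⟨fun t => if h : t < k then w ⟨t, h⟩ else x0, fun t => if h : t < k then v ⟨t, h⟩ else x0,
    ?_, ?_⟩
  · intro s t hst ht
    have hs : s < k := hst.trans ht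
    simp only [ht, hs, dif_pos]
    have hmem : v ⟨s, hs⟩ ∈ p (⟨t, ht⟩ : Fin k).castSucc := by
      have hle : (⟨s, hs⟩ : Fin k).succ ≤ (⟨t, ht⟩ : Fin k).castSucc := by
        rw [Fin.le_def]; simp; omega
      exact hp.monotone hle (hv1 _)
    rw [hW] at hmem
    exact hmem _ (hw1 _)
  · intro t ht
    simp only [ht, dif_pos]
    exact hw2 _

lemma chain_of_wit {G : SimpleGraph V} {k : ℕ} {w v : ℕ → V} (h : Wit G k w v) :
    ∃ p : Fin (k + 1) → Set V, StrictMono p ∧ ∀ i, IsFlat G (p i) := by
  refine ⟨fun i => St G {x | ∃ t, i.val ≤ t ∧ t < k ∧ x = w t}, ?_, fun i => ⟨_, rfl⟩⟩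
  rw [Fin.strictMono_iff_lt_succ]
  intro i
  have hi : i.val < k := i.isLt
  constructor
  · intro x hx y hy
    obtain ⟨t, ht1, ht2, rfl⟩ := hy
    simp only [Fin.val_succ] at ht1
    exact hx _ ⟨t, by simp; omega, ht2, rfl⟩
  · intro hsub
    have hmem : v i.val ∈ St G {x | ∃ t, (i.succ).val ≤ t ∧ t < k ∧ x = w t} := by
      intro y hy
      obtain ⟨t, ht1, ht2, rfl⟩ := hy
      simp only [Fin.val_succ] at ht1
      exact h.1 _ _ (by omega) ht2
    have := hsub hmem
    exact h.2 i.val hi (this _ ⟨i.val, by simp, hi, rfl⟩)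

lemma Wit.w_inj {G : SimpleGraph V} {k : ℕ} {w v : ℕ → V} (h : Wit G k w v) :
    ∀ s < k, ∀ t < k, w s = w t → s = t := by
  intro s hs t ht he
  rcases lt_trichotomy s t with hl | hl | hl
  · exact absurd (he ▸ h.1 s t hl ht) (h.2 s hs)
  · exact hl
  · exact absurd (he ▸ h.1 t s hl hs) (h.2 t ht)

lemma Wit.v_inj {G : SimpleGraph V} {k : ℕ} {w v : ℕ → V} (h : Wit G k w v) :
    ∀ s < k, ∀ t < k, v s = v t → s = t := by
  intro s hs t ht he
  rcases lt_trichotomy s t with hl | hl | hl
  · exact absurd (he ▸ h.1 s t hl ht) (h.2 t ht)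
  · exact hl
  · exact absurd (he ▸ h.1 t s hl hs) (h.2 s hs)

lemma Wit.le_card [Fintype V] {G : SimpleGraph V} {k : ℕ} {w v : ℕ → V} (h : Wit G k w v) :
    k ≤ Fintype.card V := by
  classical
  have h1 : ((Finset.range k).image w).card = k := by
    rw [Finset.card_image_of_injOn, Finset.card_range]
    intro s hs t ht he
    simp only [Finset.coe_range, Set.mem_Iio] at hs ht
    exact h.w_inj s hs t ht he
  have h2 := Finset.card_le_univ ((Finset.range k).image w)
  omega

lemma mem_bound [Fintype V] [Nonempty V] (G : SimpleGraph V) :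
    BddAbove {k : ℕ | ∃ p : Fin (k + 1) → Set V, StrictMono p ∧ ∀ i, IsFlat G (p i)} := by
  refine ⟨Fintype.card V, ?_⟩
  rintro k ⟨p, hp, hf⟩
  obtain ⟨w, v, h⟩ := wit_of_chain p hp hf
  exact h.le_card

lemma le_cRank [Fintype V] [Nonempty V] {G : SimpleGraph V} {k : ℕ} {w v : ℕ → V}
    (h : Wit G k w v) : k ≤ cRank G :=
  le_csSup (mem_bound G) (chain_of_wit h)

lemma exists_wit [Fintype V] [Nonempty V] (G : SimpleGraph V) : ∃ w v, Wit G (cRank G) w v := by
  have hne : {k : ℕ | ∃ p : Fin (k + 1) → Set V, StrictMono p ∧ ∀ i, IsFlat G (p i)}.Nonempty := by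
    obtain ⟨x0⟩ := ‹Nonempty V›
    refine ⟨0, chain_of_wit (w := fun _ => x0) (v := fun _ => x0) ⟨?_, ?_⟩⟩
    · intro s t _ ht; omega
    · intro t ht; omega
  obtain ⟨p, hp, hf⟩ := Nat.sSup_mem hne (mem_bound G)
  exact wit_of_chain p hp hf

/-! ### The upper bound `n + 2` -/

open Finset in
lemma wit_sum_le [Fintype V] {G : SimpleGraph V} {k l : ℕ} {w v w' v' : ℕ → V}
    (h : Wit G k w v) (h' : Wit Gᶜ l w' v') : k + l ≤ Fintype.card V + 2 := by
  classical
  by_contra hcon
  push Not at hcon
  set A : ℕ → Finset V := fun i => (Ico i k).image w with hA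
  set B : ℕ → Finset V := fun i => (range i).image v with hB
  set C : ℕ → Finset V := fun j => (Ico j l).image w' with hC
  set D : ℕ → Finset V := fun j => (range j).image v' with hD
  have hAB : ∀ i ≤ k, ∀ x ∈ A i, ∀ y ∈ B i, G.Adj x y := by
    intro i hi x hx y hy
    simp only [hA, hB, mem_image, mem_Ico, mem_range] at hx hy
    obtain ⟨t, ⟨ht1, ht2⟩, rfl⟩ := hx
    obtain ⟨s, hs, rfl⟩ := hy
    exact h.1 s t (by omega) ht2
  have hCD : ∀ j ≤ l, ∀ x ∈ C j, ∀ y ∈ D j, Gᶜ.Adj x y := by
    intro j hj x hx y hy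
    simp only [hC, hD, mem_image, mem_Ico, mem_range] at hx hy
    obtain ⟨t, ⟨ht1, ht2⟩, rfl⟩ := hx
    obtain ⟨s, hs, rfl⟩ := hy
    exact h'.1 s t (by omega) ht2
  have hcAB : ∀ i ≤ k, (A i ∪ B i).card = k := by
    intro i hi
    rw [card_union_of_disjoint, card_image_of_injOn, card_image_of_injOn, Nat.card_Ico, card_range]
    · omega
    · intro s hs t ht he
      simp only [coe_range, Set.mem_Iio] at hs ht
      exact h.v_inj s (by omega) t (by omega) he
    · intro s hs t ht he
      simp only [coe_Ico, Set.mem_Ico] at hs ht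
      exact h.w_inj s (by omega) t (by omega) he
    · rw [disjoint_left]
      intro x hx hy
      exact (hAB i hi x hx x hy).ne rfl
  have hcCD : ∀ j ≤ l, (C j ∪ D j).card = l := by
    intro j hj
    rw [card_union_of_disjoint, card_image_of_injOn, card_image_of_injOn, Nat.card_Ico, card_range]
    · omega
    · intro s hs t ht he
      simp only [coe_range, Set.mem_Iio] at hs ht
      exact h'.v_inj s (by omega) t (by omega) he
    · intro s hs t ht he
      simp only [coe_Ico, Set.mem_Ico] at hs ht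
      exact h'.w_inj s (by omega) t (by omega) he
    · rw [disjoint_left]
      intro x hx hy
      exact (hCD j hj x hx x hy).ne rfl
  have hov : ∀ i ≤ k, ∀ j ≤ l, 3 ≤ (A i ∩ (C j ∪ D j)).card + (B i ∩ (C j ∪ D j)).card := by
    intro i hi j hj
    have h1 := card_union_add_card_inter (A i ∪ B i) (C j ∪ D j)
    have h2 := card_le_univ ((A i ∪ B i) ∪ (C j ∪ D j))
    have h3 : ((A i ∪ B i) ∩ (C j ∪ D j)).card ≤
        (A i ∩ (C j ∪ D j)).card + (B i ∩ (C j ∪ D j)).card := by
      rw [union_inter_distrib_right]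
      exact card_union_le _ _
    rw [hcAB i hi, hcCD j hj] at h1
    omega
  -- the two types
  have key : ∀ j ≤ l, (∃ i ≤ k, A i ∩ C j = ∅ ∧ 2 ≤ (A i ∩ D j).card) ∨
      (∃ i ≤ k, A i ∩ D j = ∅ ∧ 2 ≤ (A i ∩ C j).card) := by
    intro j hj
    have hex : ∃ i, i ≤ k ∧ (B i ∩ (C j ∪ D j)).Nonempty := by
      refine ⟨k, le_rfl, ?_⟩
      have := hov k le_rfl j hj
      have hAk : A k = ∅ := by simp [hA]
      rw [hAk, empty_inter, card_empty, zero_add] at this
      exact card_pos.1 (by omega)
    set i := Nat.find hex with hi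
    obtain ⟨hik, b, hb⟩ := Nat.find_spec hex
    rw [← hi] at hik hb
    have hi0 : i ≠ 0 := by
      intro h0
      rw [h0] at hb
      simp [hB] at hb
    have hprev : ¬ (B (i - 1) ∩ (C j ∪ D j)).Nonempty := by
      intro hne
      exact Nat.find_min hex (m := i - 1) (by omega) ⟨by omega, hne⟩
    have hBi : B i = insert (v (i - 1)) (B (i - 1)) := by
      simp only [hB]
      rw [← image_insert, ← range_add_one]
      congr 2
      omega
    have hBcard : (B i ∩ (C j ∪ D j)).card ≤ 1 := by
      rw [card_le_one]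
      have hall : ∀ a ∈ B i ∩ (C j ∪ D j), a = v (i - 1) := by
        intro a ha
        rw [mem_inter, hBi, mem_insert] at ha
        rcases ha with ⟨h1 | h1, h2⟩
        · exact h1
        · exact absurd ⟨a, mem_inter.2 ⟨h1, h2⟩⟩ hprev
      intro a ha a' ha'
      rw [hall a ha, hall a' ha']
    have hA2 : 2 ≤ (A i ∩ (C j ∪ D j)).card := by
      have := hov i hik j hj
      omega
    rw [mem_inter, mem_union] at hb
    obtain ⟨hbB, hbC | hbD⟩ := hb
    · right
      have hem : A i ∩ D j = ∅ := by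
        rw [eq_empty_iff_forall_notMem]
        intro x hx
        rw [mem_inter] at hx
        have h1 := hAB i hik x hx.1 b hbB
        have h2 := hCD j hj b hbC x hx.2
        rw [SimpleGraph.compl_adj] at h2
        exact h2.2 h1.symm
      refine ⟨i, hik, hem, ?_⟩
      rw [inter_union_distrib_left, hem, union_empty] at hA2
      exact hA2
    · left
      have hem : A i ∩ C j = ∅ := by
        rw [eq_empty_iff_forall_notMem]
        intro x hx
        rw [mem_inter] at hx
        have h1 := hAB i hik x hx.1 b hbB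
        have h2 := hCD j hj x hx.2 b hbD
        rw [SimpleGraph.compl_adj] at h2
        exact h2.2 h1
      refine ⟨i, hik, hem, ?_⟩
      rw [inter_union_distrib_left, hem, empty_union] at hA2
      exact hA2
  have hAmono : ∀ i i', i ≤ i' → A i' ⊆ A i := by
    intro i i' hii
    exact image_subset_image (Ico_subset_Ico_left hii)
  have step : ∀ j, j + 1 ≤ l → (∃ i ≤ k, A i ∩ D j = ∅ ∧ 2 ≤ (A i ∩ C j).card) →
      ¬ (∃ i ≤ k, A i ∩ C (j + 1) = ∅ ∧ 2 ≤ (A i ∩ D (j + 1)).card) := by
    rintro j hj ⟨i', hi', h1, h2⟩ ⟨i, hi, h3, h4⟩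
    have hCj : C j ⊆ insert (w' j) (C (j + 1)) := by
      intro x hx
      simp only [hC, mem_image, mem_Ico] at hx
      obtain ⟨t, ⟨ht1, ht2⟩, rfl⟩ := hx
      rcases Nat.eq_or_lt_of_le ht1 with he | hl
      · rw [← he]; exact mem_insert_self _ _
      · refine mem_insert_of_mem ?_
        simp only [hC, mem_image, mem_Ico]
        exact ⟨t, ⟨hl, ht2⟩, rfl⟩
    have hDj : D (j + 1) ⊆ insert (v' j) (D j) := by
      intro x hx
      simp only [hD, mem_image, mem_range] at hx
      obtain ⟨t, ht, rfl⟩ := hx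
      rcases Nat.eq_or_lt_of_le (Nat.lt_succ_iff.1 ht) with he | hl
      · rw [he]; exact mem_insert_self _ _
      · refine mem_insert_of_mem ?_
        simp only [hD, mem_image, mem_range]
        exact ⟨t, hl, rfl⟩
    have h5 : (A i' ∩ C (j + 1)).Nonempty := by
      by_contra hne
      rw [not_nonempty_iff_eq_empty] at hne
      have : A i' ∩ C j ⊆ {w' j} := by
        intro x hx
        rw [mem_inter] at hx
        rcases mem_insert.1 (hCj hx.2) with he | hm
        · simp [he]
        · have : x ∈ A i' ∩ C (j + 1) := mem_inter.2 ⟨hx.1, hm⟩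
          rw [hne] at this; simp at this
      have := card_le_card this
      rw [card_singleton] at this
      omega
    have h6 : (A i ∩ D j).Nonempty := by
      by_contra hne
      rw [not_nonempty_iff_eq_empty] at hne
      have : A i ∩ D (j + 1) ⊆ {v' j} := by
        intro x hx
        rw [mem_inter] at hx
        rcases mem_insert.1 (hDj hx.2) with he | hm
        · simp [he]
        · have : x ∈ A i ∩ D j := mem_inter.2 ⟨hx.1, hm⟩
          rw [hne] at this; simp at this
      have := card_le_card this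
      rw [card_singleton] at this
      omega
    rcases le_total i i' with hii | hii
    · obtain ⟨x, hx⟩ := h5
      rw [mem_inter] at hx
      have : x ∈ A i ∩ C (j + 1) := mem_inter.2 ⟨hAmono _ _ hii hx.1, hx.2⟩
      rw [h3] at this; simp at this
    · obtain ⟨x, hx⟩ := h6
      rw [mem_inter] at hx
      have : x ∈ A i' ∩ D j := mem_inter.2 ⟨hAmono _ _ hii hx.1, hx.2⟩
      rw [h1] at this; simp at this
  have noP : ∀ j ≤ l, ¬ (∃ i ≤ k, A i ∩ C j = ∅ ∧ 2 ≤ (A i ∩ D j).card) := by
    intro j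
    induction j with
    | zero =>
      rintro _ ⟨i, _, _, h2⟩
      simp [hD] at h2
    | succ j ih =>
      intro hj
      refine step j hj ?_
      rcases key j (by omega) with hP | hQ
      · exact absurd hP (ih (by omega))
      · exact hQ
  rcases key l le_rfl with hP | ⟨i, _, _, h2⟩
  · exact noP l le_rfl hP
  · simp [hC] at h2

/-! ### Full chains -/

lemma wit_full [Fintype V] {H : SimpleGraph V} {w v : ℕ → V}
    (h : Wit H (Fintype.card V) w v) : H = ⊤ := by
  classical
  have hsurj : ∀ x : V, ∃ t < Fintype.card V, x = w t := by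
    intro x
    have h1 : (Finset.range (Fintype.card V)).image w = Finset.univ := by
      apply Finset.eq_univ_of_card
      rw [Finset.card_image_of_injOn, Finset.card_range]
      intro s hs t ht he
      simp only [Finset.coe_range, Set.mem_Iio] at hs ht
      exact h.w_inj s hs t ht he
    have h2 : x ∈ (Finset.range (Fintype.card V)).image w := by rw [h1]; simp
    rw [Finset.mem_image] at h2
    obtain ⟨t, ht, rfl⟩ := h2
    exact ⟨t, Finset.mem_range.1 ht, rfl⟩
  have hvw : ∀ s, s < Fintype.card V → v s = w s := by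
    intro s
    induction s using Nat.strong_induction_on with
    | _ s ih =>
      intro hs
      obtain ⟨t, ht, he⟩ := hsurj (v s)
      rcases lt_trichotomy s t with hl | hl | hl
      · have := h.1 s t hl ht
        rw [he] at this
        exact absurd rfl this.ne
      · rw [he, hl]
      · have h1 := ih t hl ht
        have : v s = v t := by rw [he, h1]
        have := h.v_inj s hs t ht this
        omega
  ext x y
  rw [SimpleGraph.top_adj]
  constructor
  · intro hxy; exact hxy.ne
  · intro hne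
    obtain ⟨s, hs, rfl⟩ := hsurj x
    obtain ⟨t, ht, rfl⟩ := hsurj y
    rcases lt_trichotomy s t with hl | hl | hl
    · have := h.1 s t hl ht
      rw [hvw s hs] at this
      exact this.symm
    · rw [hl] at hne; exact absurd rfl hne
    · have := h.1 t s hl hs
      rw [hvw t ht] at this
      exact this

lemma bot_rank [Fintype V] [Nonempty V] : cRank (⊥ : SimpleGraph V) ≤ 1 := by
  by_contra hcon
  push Not at hcon
  obtain ⟨w, v, h⟩ := exists_wit (⊥ : SimpleGraph V)
  have := h.1 0 1 (by omega) hcon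
  simp at this

lemma rank_le_card [Fintype V] [Nonempty V] (G : SimpleGraph V) : cRank G ≤ Fintype.card V := by
  obtain ⟨w, v, h⟩ := exists_wit G
  exact h.le_card

lemma rank_sum_le [Fintype V] [Nonempty V] (G : SimpleGraph V) :
    cRank G + cRank Gᶜ ≤ Fintype.card V + 2 := by
  obtain ⟨w, v, h⟩ := exists_wit G
  obtain ⟨w', v', h'⟩ := exists_wit Gᶜ
  exact wit_sum_le h h'

lemma rank_eq_card [Fintype V] [Nonempty V] {G : SimpleGraph V} (h : cRank G = Fintype.card V) :
    G = ⊤ := by
  obtain ⟨w, v, hw⟩ := exists_wit G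
  rw [h] at hw
  exact wit_full hw

/-- With at most `2` edges the sum is at most `n + 1`. -/
lemma few_edges [Fintype V] [Nonempty V] {G : SimpleGraph V} (he : G.edgeSet.ncard ≤ 2) :
    cRank G + cRank Gᶜ ≤ Fintype.card V + 1 := by
  classical
  obtain ⟨w, v, h⟩ := exists_wit G
  have h2 : cRank G ≤ 2 := by
    by_contra hcon
    push Not at hcon
    have e1 := h.1 0 1 (by omega) (by omega)
    have e2 := h.1 0 2 (by omega) (by omega)
    have e3 := h.1 1 2 (by omega) (by omega)
    have hw12 : w 1 ≠ w 2 := fun hh => by have := h.w_inj 1 (by omega) 2 (by omega) hh; omega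
    have hv01 : v 0 ≠ v 1 := fun hh => by have := h.v_inj 0 (by omega) 1 (by omega) hh; omega
    have hsub : (({s(w 1, v 0), s(w 2, v 0), s(w 2, v 1)} : Finset (Sym2 V)) : Set (Sym2 V)) ⊆
        G.edgeSet := by
      intro e hemem
      simp only [Finset.coe_insert, Finset.coe_singleton, Set.mem_insert_iff,
        Set.mem_singleton_iff] at hemem
      rcases hemem with rfl | rfl | rfl
      · exact e1
      · exact e2
      · exact e3
    have hcard : ({s(w 1, v 0), s(w 2, v 0), s(w 2, v 1)} : Finset (Sym2 V)).card = 3 := by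
      rw [Finset.card_insert_of_notMem, Finset.card_insert_of_notMem, Finset.card_singleton]
      · simp only [Finset.mem_singleton, Sym2.eq_iff]
        rintro (⟨_, hh⟩ | ⟨hh, _⟩)
        · exact hv01 hh
        · exact e3.ne hh
      · simp only [Finset.mem_insert, Finset.mem_singleton, Sym2.eq_iff]
        rintro ((⟨hh, _⟩ | ⟨hh, _⟩) | (⟨hh, _⟩ | ⟨_, hh⟩))
        · exact hw12 hh
        · exact e1.ne hh
        · exact hw12 hh
        · exact e2.ne hh.symm
    have h3 := Set.ncard_le_ncard hsub (Set.toFinite _)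
    rw [Set.ncard_coe_finset, hcard] at h3
    omega
  have h4 := rank_le_card Gᶜ
  by_cases hG : cRank G ≤ 1
  · omega
  · have e1 := h.1 0 1 (by omega) (by omega)
    have hne : cRank Gᶜ ≠ Fintype.card V := by
      intro heq
      have := rank_eq_card heq
      have h5 : Gᶜ.Adj (w 1) (v 0) := by rw [this, SimpleGraph.top_adj]; exact e1.ne
      rw [SimpleGraph.compl_adj] at h5
      exact h5.2 e1
    omega

/-! ### Constructions -/

lemma bot_sum (n : ℕ) (hn : 1 ≤ n) :
    n + 1 ≤ cRank (⊥ : SimpleGraph (Fin n)) + cRank (⊥ : SimpleGraph (Fin n))ᶜ := by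
  haveI : Nonempty (Fin n) := ⟨⟨0, hn⟩⟩
  have h1 : 1 ≤ cRank (⊥ : SimpleGraph (Fin n)) := by
    apply le_cRank (w := fun _ => ⟨0, hn⟩) (v := fun _ => ⟨0, hn⟩)
    refine ⟨?_, ?_⟩
    · intro s t hst ht; omega
    · intro t ht; simp
  have h2 : n ≤ cRank (⊥ : SimpleGraph (Fin n))ᶜ := by
    apply le_cRank (w := fun t => if h : t < n then ⟨t, h⟩ else ⟨0, hn⟩)
      (v := fun t => if h : t < n then ⟨t, h⟩ else ⟨0, hn⟩)
    refine ⟨?_, ?_⟩
    · intro s t hst ht
      have hs : s < n := by omega
      simp only [ht, hs, dif_pos, SimpleGraph.compl_adj, SimpleGraph.bot_adj, not_false_iff,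
        and_true, ne_eq, Fin.mk.injEq]
      omega
    · intro t ht; simp
  omega

/-- The path `0 - 1 - 2 - 3` together with `n - 4` isolated vertices. -/
def P (n : ℕ) : SimpleGraph (Fin n) where
  Adj x y := (x.val < 4 ∧ y.val < 4) ∧ (x.val + 1 = y.val ∨ y.val + 1 = x.val)
  symm := by
    constructor
    rintro x y ⟨⟨h1, h2⟩, h3⟩
    exact ⟨⟨h2, h1⟩, h3.symm⟩
  loopless := by
    constructor
    rintro x ⟨_, h⟩
    omega

lemma P_adj (n : ℕ) (x y : Fin n) : (P n).Adj x y ↔
    (x.val < 4 ∧ y.val < 4) ∧ (x.val + 1 = y.val ∨ y.val + 1 = x.val) := Iff.rfl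

lemma P_sum (n : ℕ) (hn : 4 ≤ n) : n + 2 ≤ cRank (P n) + cRank (P n)ᶜ := by
  haveI : Nonempty (Fin n) := ⟨⟨0, by omega⟩⟩
  have h1 : 3 ≤ cRank (P n) := by
    apply le_cRank
      (w := fun t => if t = 0 then ⟨2, by omega⟩ else if t = 1 then ⟨3, by omega⟩ else ⟨1, by omega⟩)
      (v := fun t => if t = 0 then ⟨2, by omega⟩ else if t = 1 then ⟨0, by omega⟩ else ⟨3, by omega⟩)
    refine ⟨?_, ?_⟩
    · intro s t hst ht
      interval_cases t <;> interval_cases s <;> simp [P_adj]
    · intro t ht
      interval_cases t <;> simp [P_adj]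
  have h2 : n - 1 ≤ cRank (P n)ᶜ := by
    apply le_cRank
      (w := fun t => if h : t + 1 < n then ⟨t + 1, h⟩ else ⟨0, by omega⟩)
      (v := fun t => if h : t + 1 < n then ⟨if t < 3 then t else t + 1, by split_ifs <;> omega⟩
        else ⟨0, by omega⟩)
    refine ⟨?_, ?_⟩
    · intro s t hst ht
      have ht' : t + 1 < n := by omega
      have hs' : s + 1 < n := by omega
      simp only [ht', hs', dif_pos, SimpleGraph.compl_adj, P_adj, ne_eq, Fin.mk.injEq]
      split_ifs <;> omega
    · intro t ht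
      have ht' : t + 1 < n := by omega
      simp only [ht', dif_pos, SimpleGraph.compl_adj, P_adj, ne_eq, Fin.mk.injEq]
      split_ifs <;> omega
  omega

lemma P_edges (n : ℕ) (hn : 4 ≤ n) : (P n).edgeSet.ncard = 3 := by
  classical
  have hE : (P n).edgeSet = (({s((⟨0, by omega⟩ : Fin n), ⟨1, by omega⟩),
      s((⟨1, by omega⟩ : Fin n), ⟨2, by omega⟩), s((⟨2, by omega⟩ : Fin n), ⟨3, by omega⟩)} :
      Finset (Sym2 (Fin n))) : Set (Sym2 (Fin n))) := by
    ext e
    induction e using Sym2.ind with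
    | _ x y =>
      simp only [SimpleGraph.mem_edgeSet, P_adj, Finset.coe_insert, Finset.coe_singleton,
        Set.mem_insert_iff, Set.mem_singleton_iff, Sym2.eq_iff, Fin.ext_iff]
      omega
  rw [hE, Set.ncard_coe_finset, Finset.card_insert_of_notMem, Finset.card_insert_of_notMem,
    Finset.card_singleton]
  · simp [Sym2.eq_iff, Fin.ext_iff]
  · simp [Sym2.eq_iff, Fin.ext_iff]

/-- `M(n)` is the maximum of `c-rk G + c-rk Gᶜ` over the graphs `G` with `n` vertices. -/
noncomputable def M (n : ℕ) : ℕ := sSup {s | ∃ G : SimpleGraph (Fin n), s = cRank G + cRank Gᶜ}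

lemma M_eq {n m : ℕ} (h1 : ∀ G : SimpleGraph (Fin n), cRank G + cRank Gᶜ ≤ m)
    (h2 : ∃ G : SimpleGraph (Fin n), cRank G + cRank Gᶜ = m) : M n = m := by
  apply le_antisymm
  · apply csSup_le
    · obtain ⟨G, hG⟩ := h2
      exact ⟨m, G, hG.symm⟩
    · rintro s ⟨G, rfl⟩
      exact h1 G
  · obtain ⟨G, hG⟩ := h2
    apply le_csSup
    · refine ⟨m, ?_⟩
      rintro s ⟨G, rfl⟩
      exact h1 G
    · exact ⟨G, hG.symm⟩

/-- The set of the edge numbers of the `n`-vertex graphs with `c-rk G + c-rk Gᶜ = M(n)`. -/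
def EdgeNumbers (n : ℕ) : Set ℕ :=
  {e | ∃ G : SimpleGraph (Fin n), cRank G + cRank Gᶜ = M n ∧ G.edgeSet.ncard = e}

/-- For `1 ≤ n ≤ 3`, `M(n) = n + 1` and the smallest number of edges is `0`; for `n ≥ 4`,
`M(n) = n + 2` and the smallest number of edges is `3`. -/
theorem result (n : ℕ) (hn : 1 ≤ n) :
    (n ≤ 3 → M n = n + 1 ∧ IsLeast (EdgeNumbers n) 0) ∧
    (4 ≤ n → M n = n + 2 ∧ IsLeast (EdgeNumbers n) 3) := by
  haveI : Nonempty (Fin n) := ⟨⟨0, hn⟩⟩
  constructor
  · intro h3
    have hup : ∀ G : SimpleGraph (Fin n), cRank G + cRank Gᶜ ≤ n + 1 := by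
      intro G
      have h1 := rank_le_card G
      have h2 := rank_le_card Gᶜ
      have hb := bot_rank (V := Fin n)
      rw [Fintype.card_fin] at h1 h2
      by_cases e1 : cRank G = n
      · have : G = ⊤ := rank_eq_card (by rw [Fintype.card_fin]; exact e1)
        rw [this, compl_top]
        rw [this] at h1
        omega
      · by_cases e2 : cRank Gᶜ = n
        · have h4 : Gᶜ = ⊤ := rank_eq_card (by rw [Fintype.card_fin]; exact e2)
          have h5 : G = ⊥ := by rw [← compl_compl G, h4, compl_top]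
          rw [h5] at h2 ⊢
          omega
        · omega
    have hbot : cRank (⊥ : SimpleGraph (Fin n)) + cRank (⊥ : SimpleGraph (Fin n))ᶜ = n + 1 :=
      le_antisymm (hup _) (bot_sum n hn)
    have hM : M n = n + 1 := M_eq hup ⟨⊥, hbot⟩
    refine ⟨hM, ⟨⊥, ?_, by simp⟩, fun e _ => Nat.zero_le e⟩
    rw [hbot, hM]
  · intro h4
    have hup : ∀ G : SimpleGraph (Fin n), cRank G + cRank Gᶜ ≤ n + 2 := by
      intro G
      have := rank_sum_le G
      rwa [Fintype.card_fin] at this
    have hP : cRank (P n) + cRank (P n)ᶜ = n + 2 := le_antisymm (hup _) (P_sum n h4)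
    have hM : M n = n + 2 := M_eq hup ⟨P n, hP⟩
    refine ⟨hM, ⟨P n, by rw [hP, hM], P_edges n h4⟩, ?_⟩
    rintro e ⟨G, hG, rfl⟩
    by_contra hcon
    push Not at hcon
    have := few_edges (G := G) (by omega)
    rw [Fintype.card_fin, hG, hM] at this
    omega

end Pool.Agent.Results.MP_47eac2_co.FewestEdgesMax
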